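import Pool.Agent.R868.Stab.Stable

/-!
# Stable graphs with independence number close to `n / 2` have bounded order

Negative answer to Q1 of MP_4d8c35_co: for every constant `c` the orders of the `(3, 0)`-stable graphs
`G` with `α(G) ≥ n / 2 - c` are bounded.  The same bound holds for the `(k, 0)`-stable graphs, for all
`k ≥ 3` simultaneously.
-/

set_option autoImplicit false

namespace Pool.Agent.Results.MP_4d8c35_co.BoundedOrder

open R868.Stab Finset Filter

/-- the bound, uniformly in `k ≥ 3` -/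
theorem bound (c : ℝ) : ∃ N : ℕ, ∀ k : ℕ, 3 ≤ k → ∀ (V : Type) [Fintype V] (G : SimpleGraph V),
    KLStable k 0 G → k ≤ Fintype.card V → (Fintype.card V : ℝ) / 2 - c ≤ G.indepNum →
      Fintype.card V ≤ N := by
  classical
  obtain ⟨R, hR⟩ := stable_bound ⌈2 * |c|⌉₊
  refine ⟨R, ?_⟩
  intro k hk V _ G hG hkV hα
  refine hR V G G.indepNum (fun I hI => ind_card_le G I hI) ?_ ?_
  · intro S hS
    exact hG.avoid hkV S (hS.trans hk)
  · have h1 : (2 * |c| : ℝ) ≤ (⌈2 * |c|⌉₊ : ℝ) := Nat.le_ceil _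
    have h2 : c ≤ |c| := le_abs_self c
    have h3 : (Fintype.card V : ℝ) ≤ 2 * (G.indepNum : ℝ) + (⌈2 * |c|⌉₊ : ℝ) := by linarith
    exact_mod_cast h3

theorem result :
    -- there is no sequence as asked for in Q1
    (¬ ∃ c : ℝ, 0 < c ∧ ∃ (V : ℕ → Type) (_ : ∀ i, Fintype (V i)) (G : ∀ i, SimpleGraph (V i)),
      (∀ i, KLStable 3 0 (G i)) ∧ Tendsto (fun i => Fintype.card (V i)) atTop atTop ∧
      ∀ i, (Fintype.card (V i) : ℝ) / 2 - c ≤ ((G i).indepNum : ℝ)) ∧
    -- the orders are bounded, uniformly in `k ≥ 3`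
    (∀ c : ℝ, ∃ N : ℕ, ∀ k : ℕ, 3 ≤ k → ∀ (V : Type) [Fintype V] (G : SimpleGraph V),
      KLStable k 0 G → k ≤ Fintype.card V → (Fintype.card V : ℝ) / 2 - c ≤ G.indepNum →
        Fintype.card V ≤ N) := by
  refine ⟨?_, bound⟩
  rintro ⟨c, -, V, hV, G, hG, hlim, hα⟩
  obtain ⟨N, hN⟩ := bound c
  obtain ⟨i, hi⟩ := (hlim.eventually_ge_atTop (N + 3)).exists
  have h1 := hN 3 le_rfl (V i) (G i) (hG i) (by omega) (hα i)
  omega

end Pool.Agent.Results.MP_4d8c35_co.BoundedOrder
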